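import Pool.Agent.Helper878_bh.Main
import Pool.Agent.Helper878_bg.Cor

/-!
# Special cases of the promise
-/

set_option autoImplicit false
set_option linter.unusedSectionVars false

namespace Pool.Agent.Helper878_bh

open Finset Pool.Agent.NPC Pool.Agent.H671R2.SF Pool.Agent.Helper878_dcs Pool.Agent.Helper878_mm
open Pool.Agent.Helper878_bs Pool.Agent.Helper878_bg
open scoped Classical

variable {I : Inst}

/-- a disconnected terminal set in a graph without independent triples -/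
theorem compact_seen (hw : WellFormed I) (hK : KP (GG I.2.1) I.1.toFinset) {Z : List ℕ}
    (hZ : Z ∈ I.2.2) (hd : Disc I Z) {U : Finset {v // v ∈ I.1}}
    (hU : ∀ v ∈ U, v.1 ∉ Z)
    (h3 : ∀ u v w : {v // v ∈ I.1}, (u ∈ U ∨ u.1 ∈ Z) → (v ∈ U ∨ v.1 ∈ Z) →
      (w ∈ U ∨ w.1 ∈ Z) → u ≠ v → u ≠ w → v ≠ w → (graph I.1 I.2.1).Adj u v ∨
        (graph I.1 I.2.1).Adj u w ∨ (graph I.1 I.2.1).Adj v w) :
    Compact I Z ∧ Seen I U Z := by
  have hZU := toFinset_subset hw hZ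
  have hne' : Z.toFinset.Nonempty := by
    obtain ⟨z, hz⟩ := List.exists_mem_of_ne_nil _ (hw.2.2 Z hZ).1
    exact ⟨z, List.mem_toFinset.2 hz⟩
  have hdc : ¬ Con (GG I.2.1) Z.toFinset := by
    rw [← disc_iff hK hZU (hw.2.2 Z hZ).1]
    exact (List.mem_filter.1 ((mem_discsD hw hK).2 ⟨hZ, hd⟩)).2
  obtain ⟨z, hz⟩ := hne'
  have hne' : Z.toFinset.Nonempty := ⟨z, hz⟩
  obtain ⟨z', hz', hn⟩ := exists_not_near hne' hdc z hz
  rw [List.mem_toFinset] at hz hz'
  have hV : ∀ z ∈ Z, z ∈ I.1 := (hw.2.2 Z hZ).2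
  have nzz : z ≠ z' := fun e => hn (e ▸ near_refl _ _)
  have nadj : ¬ (GG I.2.1).Adj z z' := fun e => hn (near_of_adj e)
  have key : ∀ w : {v // v ∈ I.1}, (w ∈ U ∨ w.1 ∈ Z) → w.1 ≠ z → w.1 ≠ z' →
      (graph I.1 I.2.1).Adj w ⟨z, hV z hz⟩ ∨ (graph I.1 I.2.1).Adj w ⟨z', hV z' hz'⟩ := by
    intro w hw1 n1 n2
    rcases h3 w ⟨z, hV z hz⟩ ⟨z', hV z' hz'⟩ hw1 (Or.inr hz) (Or.inr hz')
      (fun e => n1 (congrArg Subtype.val e)) (fun e => n2 (congrArg Subtype.val e))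
      (fun e => nzz (congrArg Subtype.val e)) with h | h | h
    · exact Or.inl h
    · exact Or.inr h
    · exact absurd (graph_adj.1 h) nadj
  constructor
  · by_cases hl : Z.length ≤ 2
    · exact Or.inl hl
    right
    have hnd : Z.Nodup := (List.nodup_flatten.1 hw.2.1).1 Z hZ
    have hc : Z.toFinset.card = Z.length := List.toFinset_card_of_nodup hnd
    obtain ⟨w, hw1, hw2⟩ : ∃ w ∈ Z.toFinset, w ∉ ({z, z'} : Finset ℕ) := by
      by_contra hno
      push Not at hno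
      have h1 := card_le_card (s := Z.toFinset) (t := {z, z'}) hno
      have h2 : ({z, z'} : Finset ℕ).card ≤ 2 := card_le_two
      omega
    rw [mem_insert, mem_singleton, not_or] at hw2
    rw [List.mem_toFinset] at hw1
    rcases key ⟨w, hV w hw1⟩ (Or.inr hw1) hw2.1 hw2.2 with h | h
    · exact ⟨_, _, hw1, hz, h⟩
    · exact ⟨_, _, hw1, hz', h⟩
  · intro v hv
    have n1 : v.1 ≠ z := fun e => hU v hv (e ▸ hz)
    have n2 : v.1 ≠ z' := fun e => hU v hv (e ▸ hz')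
    rcases key v (Or.inl hv) n1 n2 with h | h
    · exact ⟨_, hz, h⟩
    · exact ⟨_, hz', h⟩

/-- On `3P_1`-free graphs the former promise implies the new one. -/
theorem tame_of_sparse {t : ℕ} (hw : WellFormed I) (hF : Free threeP1 (graph I.1 I.2.1))
    (h : Helper878_bg.NearlySparse t I) : NearlyTame t I := by
  have hK : KP (GG I.2.1) I.1.toFinset := (free3_iff.1 hF).kp
  obtain ⟨S, U, T, hc, hU, hs⟩ := h
  refine ⟨S, U, T, hc, hU, fun Z hZ _ => ?_, fun X Y hX hY hXc hYc => ?_⟩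
  · exact compact_seen hw hK hZ.1 hZ.2.1 (fun v hv => ((hU v).1 hv).2 Z hZ.1)
      fun u v w _ _ _ h1 h2 h3 => tri hF u v w h1 h2 h3
  · obtain ⟨x, hx, y, hy, hxy⟩ := hs X Y hX hY hXc hYc
    refine ⟨x, hx, y, hy, ?_⟩
    rintro ⟨Z, hZ, h0, h1⟩
    exact hxy ⟨Z, hZ.1, h0, hZ.2.1, h1⟩

/-- A few vertices away from a graph without independent triples and without two disjoint
cliques of size `t` with no edge between them. -/
theorem tame_of_deletion {t : ℕ} (ht : 1 ≤ t) (hw : WellFormed I)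
    (hF : Free twoP1P2 (graph I.1 I.2.1)) (D : Finset {v // v ∈ I.1}) (hD : D.card ≤ t)
    (h3 : ∀ u v w : {v // v ∈ I.1}, u ∉ D → v ∉ D → w ∉ D → u ≠ v → u ≠ w → v ≠ w →
      (graph I.1 I.2.1).Adj u v ∨ (graph I.1 I.2.1).Adj u w ∨ (graph I.1 I.2.1).Adj v w)
    (h2 : ∀ X Y : Finset {v // v ∈ I.1}, Disjoint X D → Disjoint Y D → X.card = t → Y.card = t →
      (∀ x ∈ X, ∀ x' ∈ X, x ≠ x' → (graph I.1 I.2.1).Adj x x') →
      (∀ y ∈ Y, ∀ y' ∈ Y, y ≠ y' → (graph I.1 I.2.1).Adj y y') →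
      ∃ x ∈ X, ∃ y ∈ Y, x = y ∨ (graph I.1 I.2.1).Adj x y) : NearlyTame t I := by
  have hK : KP (GG I.2.1) I.1.toFinset := free_iff.1 hF
  -- the terminal set of a vertex
  set tm : {v // v ∈ I.1} → Option (List ℕ) := fun v =>
    if h : ∃ Z ∈ I.2.2, v.1 ∈ Z then some h.choose else none with htm
  have htm1 : ∀ v Z, Z ∈ I.2.2 → v.1 ∈ Z → tm v = some Z := by
    intro v Z hZ hv
    have hex : ∃ Z ∈ I.2.2, v.1 ∈ Z := ⟨Z, hZ, hv⟩
    have e : tm v = some hex.choose := by rw [htm]; exact dif_pos hex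
    rw [e]
    have hs := hex.choose_spec
    obtain ⟨i, hi⟩ := List.get_of_mem hs.1
    obtain ⟨j, hj⟩ := List.get_of_mem hZ
    by_cases hij : i = j
    · rw [← hi, ← hj, hij]
    · exact absurd (hj ▸ hv) (wf_disjoint hw i j hij v.1 (hi ▸ hs.2))
  set S : Finset {v // v ∈ I.1} := D.filter fun v => tm v = none with hS
  set D' : Finset {v // v ∈ I.1} := D.filter fun v => tm v ≠ none with hD'
  set T : Finset (List ℕ) := D'.image fun v => (tm v).getD [] with hT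
  set U : Finset {v // v ∈ I.1} := univ.filter fun v => v ∉ S ∧ ∀ Z ∈ I.2.2, v.1 ∉ Z with hUdef
  have hmU : ∀ v, v ∈ U ↔ v ∉ S ∧ ∀ Z ∈ I.2.2, v.1 ∉ Z := fun v => by
    rw [hUdef, mem_filter]; simp
  have hUD : ∀ v ∈ U, v ∉ D := by
    intro v hv hvD
    rw [hmU] at hv
    refine hv.1 (mem_filter.2 ⟨hvD, ?_⟩)
    rw [htm]
    exact dif_neg fun ⟨Z, hZ, hvZ⟩ => hv.2 Z hZ hvZ
  refine ⟨S, U, T, ?_, hmU, ?_, ?_⟩
  · have h4 : T.card ≤ D'.card := card_image_le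
    have h5 := card_filter_add_card_filter_not (s := D) (fun v => tm v = none)
    rw [← hS] at h5
    have h6 : (D.filter fun v => ¬ tm v = none) = D' := rfl
    rw [h6] at h5
    omega
  · intro Z hZh hZT
    obtain ⟨hZ, hd, _⟩ := hZh
    have hZD : ∀ v : {v // v ∈ I.1}, v.1 ∈ Z → v ∉ D := by
      intro v hv hvD
      have h4 := htm1 v Z hZ hv
      refine hZT (mem_image.2 ⟨v, mem_filter.2 ⟨hvD, ?_⟩, ?_⟩)
      · rw [h4]; exact Option.some_ne_none Z
      · rw [h4]; rfl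
    have hout : ∀ v, (v ∈ U ∨ v.1 ∈ Z) → v ∉ D := fun v hv => hv.elim (hUD v) (hZD v)
    exact compact_seen hw hK hZ hd (fun v hv => ((hmU v).1 hv).2 Z hZ)
      fun u v w hu hv hw => h3 u v w (hout u hu) (hout v hv) (hout w hw)
  · intro X Y hX hY hXc hYc
    by_contra hn
    push Not at hn
    have hXD : ∀ x ∈ X, x ∉ D := fun x hx => hUD x (hX hx)
    have hYD : ∀ y ∈ Y, y ∉ D := fun y hy => hUD y (hY hy)
    have hsp : ∀ x ∈ X, ∀ y ∈ Y, x ≠ y ∧ ¬ (graph I.1 I.2.1).Adj x y := by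
      intro x hx y hy
      obtain ⟨Z, _, _, _, ⟨⟨p, hp, h4⟩, _, h5⟩, h6⟩ := hn x hx y hy
      refine ⟨?_, h6⟩
      rintro rfl
      exact (h5 p p hp hp h4 h4).1 rfl
    obtain ⟨x0, hx0⟩ : X.Nonempty := by rw [← card_pos]; omega
    obtain ⟨y0, hy0⟩ : Y.Nonempty := by rw [← card_pos]; omega
    obtain ⟨x, hx, y, hy, hxy⟩ := h2 X Y (disjoint_left.2 hXD) (disjoint_left.2 hYD) hXc hYc
      (by
        intro x hx x' hx' hne
        rcases h3 x x' y0 (hXD x hx) (hXD x' hx') (hYD y0 hy0) hne (hsp x hx y0 hy0).1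
          (hsp x' hx' y0 hy0).1 with h4 | h4 | h4
        · exact h4
        · exact absurd h4 (hsp x hx y0 hy0).2
        · exact absurd h4 (hsp x' hx' y0 hy0).2)
      (by
        intro y hy y' hy' hne
        rcases h3 x0 y y' (hXD x0 hx0) (hYD y hy) (hYD y' hy') (hsp x0 hx0 y hy).1
          (hsp x0 hx0 y' hy').1 hne with h4 | h4 | h4
        · exact absurd h4 (hsp x0 hx0 y hy).2
        · exact absurd h4 (hsp x0 hx0 y' hy').2
        · exact h4)
    rcases hxy with hxy | hxy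
    · exact (hsp x hx y hy).1 hxy
    · exact (hsp x hx y hy).2 hxy

end Pool.Agent.Helper878_bh
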