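import Pool.Agent.Helper878_bg.Defs

/-!
# Nearly tame inputs: definitions
-/

set_option autoImplicit false

namespace Pool.Agent.Helper878_bh

open Pool.Agent.Helper878_dcs Pool.Agent.Helper878_bg

/-- The number of nonterminals each of which alone makes the terminal set `Z` connected. -/
noncomputable def numJoin (I : Inst) (Z : List ℕ) : ℕ :=
  Nat.card {v : {v // v ∈ I.1} // (∀ Y ∈ I.2.2, v.1 ∉ Y) ∧
    ((graph I.1 I.2.1).induce (insert v (vset I.1 Z))).Connected}

/-- The terminal set `Z` is hard: it is disconnected, and fewer than `3k` nonterminals alone make it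
connected, where `k` is the number of disconnected terminal sets. -/
def Hard (I : Inst) (Z : List ℕ) : Prop :=
  Z ∈ I.2.2 ∧ Disc I Z ∧ numJoin I Z < 3 * numDisc I

/-- The terminal set `Z` has at most two elements or contains two adjacent vertices. -/
def Compact (I : Inst) (Z : List ℕ) : Prop :=
  Z.length ≤ 2 ∨ ∃ x y : {v // v ∈ I.1}, x.1 ∈ Z ∧ y.1 ∈ Z ∧ (graph I.1 I.2.1).Adj x y

/-- Every vertex of `U` has a neighbour in the terminal set `Z`. -/
def Seen (I : Inst) (U : Finset {v // v ∈ I.1}) (Z : List ℕ) : Prop :=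
  ∀ v ∈ U, ∃ z : {v // v ∈ I.1}, z.1 ∈ Z ∧ (graph I.1 I.2.1).Adj v z

/-- The pair `a, b` is split: `a` and `b` are nonadjacent, and they see different parts of some
hard terminal set which is not in `T` and which is joined by `U`. -/
def SplitH (I : Inst) (T : Finset (List ℕ)) (U : Finset {v // v ∈ I.1})
    (a b : {v // v ∈ I.1}) : Prop :=
  ∃ Z, Hard I Z ∧ Z ∉ T ∧ Helper878_bg.Joined I U Z ∧ Opp I Z a b ∧ ¬ (graph I.1 I.2.1).Adj a b

/-- The split pairs in `U` contain no `t` times `t` biclique: of any two sets of `t` vertices of `U`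
some vertex of the first and some vertex of the second are not a split pair. -/
def SparseH (t : ℕ) (I : Inst) (T : Finset (List ℕ)) (U : Finset {v // v ∈ I.1}) : Prop :=
  ∀ X Y : Finset {v // v ∈ I.1}, X ⊆ U → Y ⊆ U → X.card = t → Y.card = t →
    ∃ x ∈ X, ∃ y ∈ Y, ¬ SplitH I T U x y

/-- There are a set `S` of vertices and a set `T` of terminal sets, at most `t` elements in all,
such that, for the set `U` of the nonterminals outside `S`: every hard terminal set outside `T` is
compact and is seen by all of `U`, and the split pairs in `U` (with `T` ignored) contain no `t`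
times `t` biclique. -/
def NearlyTame (t : ℕ) (I : Inst) : Prop :=
  ∃ (S U : Finset {v // v ∈ I.1}) (T : Finset (List ℕ)), S.card + T.card ≤ t ∧
    (∀ v, v ∈ U ↔ v ∉ S ∧ ∀ Z ∈ I.2.2, v.1 ∉ Z) ∧
    (∀ Z, Hard I Z → Z ∉ T → Compact I Z ∧ Seen I U Z) ∧ SparseH t I T U

end Pool.Agent.Helper878_bh
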