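import Pool.Agent.Helper878_bh.TopD

/-!
# Ignoring terminal sets with many connecting vertices
-/

set_option autoImplicit false
set_option linter.unusedSectionVars false

namespace Pool.Agent.Helper878_bh

open Finset Pool.Agent.NPC Pool.Agent.H671R2.SF Pool.Agent.Helper878_dcs Pool.Agent.Helper878_mm
open Pool.Agent.Helper878_bs Pool.Agent.Helper878_bg
open scoped Classical

/-- the vertices of `W` which alone connect `Z` -/
def joinL (E : List (ℕ × ℕ)) (W Z : List ℕ) : List ℕ := W.filter fun v => !discB E (v :: Z)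

/-- the terminal sets connected by few vertices -/
def hardL (E : List (ℕ × ℕ)) (W : List ℕ) (J : List (List ℕ)) : List (List ℕ) :=
  J.filter fun Z => decide ((joinL E W Z).length < 3 * J.length)

section
variable {γ : Type} [TEnc γ] {E : γ → List (ℕ × ℕ)} {W Z : γ → List ℕ} {J : γ → List (List ℕ)}

@[fun_prop]
theorem poly_joinL (hE : Poly E) (hW : Poly W) (hZ : Poly Z) :
    Poly (fun x => joinL (E x) (W x) (Z x)) := by
  unfold joinL; fun_prop

@[fun_prop]
theorem poly_hardL (hE : Poly E) (hW : Poly W) (hJ : Poly J) :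
    Poly (fun x => hardL (E x) (W x) (J x)) := by
  unfold hardL; fun_prop

end

variable {E : List (ℕ × ℕ)} {U : Finset ℕ} {W : List ℕ} {J : List (List ℕ)}

theorem mem_joinL (h : LCtx E U W J) {Z : List ℕ} (hZ : Z ∈ J) {v : ℕ} :
    v ∈ joinL E W Z ↔ v ∈ W ∧ Con (GG E) (Z.toFinset ∪ {v}) := by
  unfold joinL
  rw [List.mem_filter]
  refine and_congr_right fun hv => ?_
  have hsub : (v :: Z).toFinset ⊆ U := by
    intro x hx
    rw [List.mem_toFinset, List.mem_cons] at hx
    rcases hx with rfl | hx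
    · exact h.hWU (List.mem_toFinset.2 hv)
    · exact h.hJU Z hZ (List.mem_toFinset.2 hx)
  have he : (v :: Z).toFinset = Z.toFinset ∪ {v} := by
    ext x
    simp only [List.mem_toFinset, List.mem_cons, mem_union, mem_singleton]
    tauto
  rw [Bool.not_eq_true', ← Bool.not_eq_true, disc_iff h.hK hsub (List.cons_ne_nil _ _), not_not,
    he]

theorem mem_hardL {Z : List ℕ} : Z ∈ hardL E W J ↔
    Z ∈ J ∧ (joinL E W Z).length < 3 * J.length := by
  unfold hardL
  rw [List.mem_filter, decide_eq_true_eq]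

theorem LCtx.hard (h : LCtx E U W J) : LCtx E U W (hardL E W J) :=
  LCtx.mono h (fun _ hw => hw) h.hWn (fun _ hZ => (mem_hardL.1 hZ).1) (h.hJn.filter _)

/-- The other terminal sets can be connected at the end. -/
theorem feas_hard (h : LCtx E U W J) : Feas (GG E) W.toFinset (Zf J) ↔
    Feas (GG E) W.toFinset (Zf (hardL E W J)) := by
  constructor
  · rintro ⟨o, ho, hd⟩
    have hm : ∀ j : {Z // Z ∈ hardL E W J}, j.1 ∈ J := fun j => (mem_hardL.1 j.2).1
    exact ⟨fun j => o ⟨j.1, hm j⟩, fun j => ho ⟨j.1, hm j⟩, fun i j hij => hd _ _ fun he =>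
      hij (Subtype.ext (Subtype.mk.inj he))⟩
  · intro hF
    obtain ⟨g, hg, hd⟩ := shrink (LCtx.hard h) hF
    set g' : {Z // Z ∈ J} → Finset ℕ := fun i =>
      if hi : i.1 ∈ hardL E W J then g ⟨i.1, hi⟩ else ∅ with hg'
    have e1 : ∀ (i : {Z // Z ∈ J}) (hi : i.1 ∈ hardL E W J), g' i = g ⟨i.1, hi⟩ := fun i hi => by
      rw [hg']; exact dif_pos hi
    set H : Finset {Z // Z ∈ J} := univ.filter fun i => i.1 ∈ hardL E W J with hH
    set L : Finset {Z // Z ∈ J} := univ.filter fun i => ¬ i.1 ∈ hardL E W J with hL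
    set R0 : Finset ℕ := H.biUnion g' with hR0
    have hHL : H.card + L.card = J.length := by
      have := card_filter_add_card_filter_not (s := (univ : Finset {Z // Z ∈ J}))
        (fun i => i.1 ∈ hardL E W J)
      rw [← hH, ← hL, card_univ, card_J h.hJn] at this
      exact this
    have hR0c : R0.card ≤ H.card * 3 := by
      refine card_biUnion_le_card_mul _ _ _ fun i hi => ?_
      have hi' := (mem_filter.1 hi).2
      rw [e1 i hi']
      obtain ⟨_, _, a, b, c, _, _, _, hs⟩ := hg ⟨i.1, hi'⟩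
      rw [hs]
      exact card_le_three
    obtain ⟨e, he1, he2⟩ := seq_choice L 1
      (fun i s => s ⊆ W.toFinset ∧ Con (GG E) (i.1.toFinset ∪ s)) R0 (by
        intro i hi R _ hRc
        have h5 : 1 ≤ L.card := card_pos.2 ⟨i, hi⟩
        have hi' := (mem_filter.1 hi).2
        have hlen : 3 * J.length ≤ (joinL E W i.1).length := by
          by_contra hn
          exact hi' (mem_hardL.2 ⟨i.2, by omega⟩)
        have hnd : (joinL E W i.1).Nodup := h.hWn.filter _
        rw [← List.toFinset_card_of_nodup hnd] at hlen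
        obtain ⟨v, hv, hvR⟩ : ∃ v ∈ (joinL E W i.1).toFinset, v ∉ R := by
          by_contra hno
          push Not at hno
          have h6 := card_le_card (s := (joinL E W i.1).toFinset) (t := R) hno
          omega
        rw [List.mem_toFinset, mem_joinL h i.2] at hv
        exact ⟨{v}, disjoint_singleton_left.2 hvR, by simp,
          singleton_subset_iff.2 (List.mem_toFinset.2 hv.1), hv.2⟩)
    refine ⟨fun i => if i.1 ∈ hardL E W J then g' i else e i, fun i => ?_, fun i j hij => ?_⟩
    · by_cases hi : i.1 ∈ hardL E W J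
      · dsimp only
        rw [if_pos hi, e1 i hi]
        exact ⟨(hg ⟨i.1, hi⟩).1, (hg ⟨i.1, hi⟩).2.1⟩
      · dsimp only
        rw [if_neg hi]
        exact (he1 i (mem_filter.2 ⟨mem_univ _, hi⟩)).1
    · dsimp only
      by_cases hi : i.1 ∈ hardL E W J <;> by_cases hj : j.1 ∈ hardL E W J
      · rw [if_pos hi, if_pos hj, e1 i hi, e1 j hj]
        exact hd _ _ fun he => hij (Subtype.ext (Subtype.mk.inj he))
      · rw [if_pos hi, if_neg hj]
        refine disjoint_of_subset_left ?_ (he1 j (mem_filter.2 ⟨mem_univ _, hj⟩)).2.2.symm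
        exact subset_biUnion_of_mem g' (mem_filter.2 ⟨mem_univ i, hi⟩)
      · rw [if_neg hi, if_pos hj]
        refine disjoint_of_subset_right ?_ (he1 i (mem_filter.2 ⟨mem_univ _, hi⟩)).2.2
        exact subset_biUnion_of_mem g' (mem_filter.2 ⟨mem_univ j, hj⟩)
      · rw [if_neg hi, if_neg hj]
        exact he2 i (mem_filter.2 ⟨mem_univ _, hi⟩) j (mem_filter.2 ⟨mem_univ _, hj⟩) hij

end Pool.Agent.Helper878_bh
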