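import Pool.Agent.Helper878_bh.Hard
import Pool.Agent.Helper878_bh.Defs
import Pool.Agent.Helper878_bg.Main

/-!
# The whole algorithm
-/

set_option autoImplicit false
set_option linter.unusedSectionVars false

namespace Pool.Agent.Helper878_bh

open Finset Pool.Agent.NPC Pool.Agent.H671R2.SF Pool.Agent.Helper878_dcs Pool.Agent.Helper878_mm
open Pool.Agent.Helper878_bs Pool.Agent.Helper878_bg
open scoped Classical

variable {I : Inst}

/-- the hard terminal sets -/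
def hards (I : Inst) : List (List ℕ) :=
  hardL I.2.1 (freeV I.1 I.2.2) (discs I.2.1 I.2.2)

theorem mem_discsD (hw : WellFormed I) (hK : KP (GG I.2.1) I.1.toFinset) {Z : List ℕ} :
    Z ∈ discs I.2.1 I.2.2 ↔ Z ∈ I.2.2 ∧ Disc I Z := by
  unfold discs
  rw [List.mem_filter]
  refine and_congr_right fun hZ => ?_
  rw [disc_iff' hw hK hZ]
  rfl

theorem numJoin_eq (hw : WellFormed I) (hK : KP (GG I.2.1) I.1.toFinset) {Z : List ℕ}
    (hZ : Z ∈ discs I.2.1 I.2.2) :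
    numJoin I Z = (joinL I.2.1 (freeV I.1 I.2.2) Z).length := by
  have hnd : (joinL I.2.1 (freeV I.1 I.2.2) Z).Nodup := (hw.1.filter _).filter _
  have hZ' := ((mem_discsD hw hK).1 hZ).1
  have key : ∀ v : {v // v ∈ I.1}, ((∀ Y ∈ I.2.2, v.1 ∉ Y) ∧
      ((graph I.1 I.2.1).induce (insert v (vset I.1 Z))).Connected) ↔
      v.1 ∈ joinL I.2.1 (freeV I.1 I.2.2) Z := by
    intro v
    rw [mem_joinL (lctx hw hK) hZ, mem_freeV]
    have h1 : Con (GG I.2.1) (Z.toFinset ∪ {v.1}) ↔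
        ((graph I.1 I.2.1).induce (insert v (vset I.1 Z))).Connected := by
      refine con_iff ?_ fun x => ?_
      · refine union_subset (toFinset_subset hw hZ') ?_
        rw [singleton_subset_iff, List.mem_toFinset]
        exact v.2
      · rw [Set.mem_insert_iff, mem_union, List.mem_toFinset, mem_singleton, Subtype.ext_iff,
          or_comm]
        rfl
    rw [h1]
    exact ⟨fun h => ⟨⟨v.2, h.1⟩, h.2⟩, fun h => ⟨h.1.2, h.2⟩⟩
  rw [← List.toFinset_card_of_nodup hnd]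
  unfold numJoin
  rw [Nat.card_congr (Equiv.ofBijective (fun v => (⟨v.1.1, List.mem_toFinset.2
    ((key v.1).1 v.2)⟩ : {v // v ∈ (joinL I.2.1 (freeV I.1 I.2.2) Z).toFinset})) ⟨?_, ?_⟩),
    Nat.card_eq_fintype_card, Fintype.card_coe]
  · intro i j h
    exact Subtype.ext (Subtype.ext (Subtype.mk.inj h))
  · rintro ⟨v, hv⟩
    rw [List.mem_toFinset] at hv
    have hvV : v ∈ I.1 := (mem_freeV.1 ((mem_joinL (lctx hw hK) hZ).1 hv).1).1
    exact ⟨⟨⟨v, hvV⟩, (key ⟨v, hvV⟩).2 hv⟩, rfl⟩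

theorem mem_hards (hw : WellFormed I) (hK : KP (GG I.2.1) I.1.toFinset) {Z : List ℕ} :
    Z ∈ hards I ↔ Hard I Z := by
  unfold hards Hard
  rw [mem_hardL, mem_discsD hw hK, numDisc_eq hw hK, and_assoc]
  refine and_congr_right fun h1 => and_congr_right fun h2 => ?_
  rw [numJoin_eq hw hK ((mem_discsD hw hK).2 ⟨h1, h2⟩)]

theorem splitH_iff (hw : WellFormed I) (hK : KP (GG I.2.1) I.1.toFinset)
    {T : Finset (List ℕ)} {U : Finset {v // v ∈ I.1}} {U' : Finset ℕ}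
    (hU : ∀ v : {v // v ∈ I.1}, v ∈ U ↔ v.1 ∈ U') (hV : ∀ v ∈ U', v ∈ I.1)
    (a b : {v // v ∈ I.1}) :
    SplitH I T U a b ↔ SpU I.2.1 U' (mns (hards I) T) a.1 b.1 := by
  have hJ : ∀ Z ∈ I.2.2, (Helper878_bg.Joined I U Z ↔ Jn I.2.1 U' Z) := by
    intro Z hZ
    unfold Helper878_bg.Joined Jn
    constructor
    · rintro ⟨a, ha, b, hb, h1, h2⟩
      exact ⟨a.1, (hU a).1 ha, b.1, (hU b).1 hb, (opp_op hw hZ a b).1 h1, graph_adj.1 h2⟩
    · rintro ⟨a, ha, b, hb, h1, h2⟩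
      exact ⟨⟨a, hV a ha⟩, (hU _).2 ha, ⟨b, hV b hb⟩, (hU _).2 hb,
        (opp_op hw hZ _ _).2 h1, graph_adj.2 h2⟩
  unfold SplitH SpU
  constructor
  · rintro ⟨Z, hZ, h0, h2, h3, h4⟩
    exact ⟨Z, mem_mns.2 ⟨(mem_hards hw hK).2 hZ, h0⟩, (hJ Z hZ.1).1 h2,
      (opp_op hw hZ.1 a b).1 h3, fun he => h4 (graph_adj.2 he)⟩
  · rintro ⟨Z, hZ, h2, h3, h4⟩
    obtain ⟨hZ1, h0⟩ := mem_mns.1 hZ
    have hZ' := (mem_hards hw hK).1 hZ1
    exact ⟨Z, hZ', h0, (hJ Z hZ'.1).2 h2, (opp_op hw hZ'.1 a b).2 h3,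
      fun he => h4 (graph_adj.1 he)⟩

theorem sparseH_iff (hw : WellFormed I) (hK : KP (GG I.2.1) I.1.toFinset) (t : ℕ)
    {T : Finset (List ℕ)} {U : Finset {v // v ∈ I.1}} {U' : Finset ℕ}
    (hU : ∀ v : {v // v ∈ I.1}, v ∈ U ↔ v.1 ∈ U') (hV : ∀ v ∈ U', v ∈ I.1) :
    SparseH t I T U ↔ KF U' (SpU I.2.1 U' (mns (hards I) T)) t := by
  unfold SparseH KF
  constructor
  · intro h X Y hX hY hXc hYc
    obtain ⟨X', h1, h2⟩ := exists_lift fun x hx => hV x (hX hx)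
    obtain ⟨Y', h3, h4⟩ := exists_lift fun y hy => hV y (hY hy)
    obtain ⟨x, hx, y, hy, hxy⟩ := h X' Y' (fun x hx => (hU x).2 (hX ((h2 x).1 hx)))
      (fun y hy => (hU y).2 (hY ((h4 y).1 hy))) (h1.trans hXc) (h3.trans hYc)
    exact ⟨x.1, (h2 x).1 hx, y.1, (h4 y).1 hy, fun he =>
      hxy ((splitH_iff hw hK hU hV x y).2 he)⟩
  · intro h X Y hX hY hXc hYc
    obtain ⟨x, hx, y, hy, hxy⟩ := h (X.map ⟨Subtype.val, Subtype.val_injective⟩)
      (Y.map ⟨Subtype.val, Subtype.val_injective⟩) (by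
        intro x hx
        obtain ⟨x', hx', rfl⟩ := mem_map.1 hx
        exact (hU x').1 (hX hx')) (by
        intro y hy
        obtain ⟨y', hy', rfl⟩ := mem_map.1 hy
        exact (hU y').1 (hY hy'))
      (by rw [card_map, hXc]) (by rw [card_map, hYc])
    obtain ⟨x', hx', rfl⟩ := mem_map.1 hx
    obtain ⟨y', hy', rfl⟩ := mem_map.1 hy
    exact ⟨x', hx', y', hy', fun he => hxy ((splitH_iff hw hK hU hV x' y').1 he)⟩

theorem compact_iff (hw : WellFormed I) {Z : List ℕ} (hZ : Z ∈ I.2.2) :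
    Compact I Z ↔ Sml I.2.1 Z := by
  have hV : ∀ z ∈ Z, z ∈ I.1 := (hw.2.2 Z hZ).2
  unfold Compact Sml
  refine or_congr_right ?_
  constructor
  · rintro ⟨x, y, hx, hy, h⟩
    exact ⟨x.1, hx, y.1, hy, graph_adj.1 h⟩
  · rintro ⟨x, hx, y, hy, h⟩
    exact ⟨⟨x, hV x hx⟩, ⟨y, hV y hy⟩, hx, hy, graph_adj.2 h⟩

theorem seen_iff (hw : WellFormed I) {Z : List ℕ} (hZ : Z ∈ I.2.2)
    {U : Finset {v // v ∈ I.1}} {U' : Finset ℕ}
    (hU : ∀ v : {v // v ∈ I.1}, v ∈ U ↔ v.1 ∈ U') (hV : ∀ v ∈ U', v ∈ I.1) :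
    Seen I U Z ↔ ∀ w ∈ U', ∃ z ∈ Z, (GG I.2.1).Adj w z := by
  have hVZ : ∀ z ∈ Z, z ∈ I.1 := (hw.2.2 Z hZ).2
  unfold Seen
  constructor
  · intro h w hw'
    obtain ⟨z, hz, h1⟩ := h ⟨w, hV w hw'⟩ ((hU _).2 hw')
    exact ⟨z.1, hz, graph_adj.1 h1⟩
  · intro h v hv
    obtain ⟨z, hz, h1⟩ := h v.1 ((hU v).1 hv)
    exact ⟨⟨z, hVZ z hz⟩, hz, graph_adj.2 h1⟩

theorem ok_iff (hw : WellFormed I) (hK : KP (GG I.2.1) I.1.toFinset) (t : ℕ)
    {T : Finset (List ℕ)} {U : Finset {v // v ∈ I.1}} {U' : Finset ℕ}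
    (hU : ∀ v : {v // v ∈ I.1}, v ∈ U ↔ v.1 ∈ U') (hV : ∀ v ∈ U', v ∈ I.1) :
    ((∀ Z, Hard I Z → Z ∉ T → Compact I Z ∧ Seen I U Z) ∧ SparseH t I T U) ↔
      Ok I.2.1 t U' (mns (hards I) T) := by
  unfold Ok
  rw [sparseH_iff hw hK t hU hV]
  refine and_congr_left fun _ => ?_
  constructor
  · intro h Z hZ
    obtain ⟨hZ1, h0⟩ := mem_mns.1 hZ
    have hZ' := (mem_hards hw hK).1 hZ1
    obtain ⟨h2, h3⟩ := h Z hZ' h0
    exact ⟨(compact_iff hw hZ'.1).1 h2, (seen_iff hw hZ'.1 hU hV).1 h3⟩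
  · intro h Z hZ h0
    obtain ⟨h2, h3⟩ := h Z (mem_mns.2 ⟨(mem_hards hw hK).2 hZ, h0⟩)
    exact ⟨(compact_iff hw hZ.1).2 h2, (seen_iff hw hZ.1 hU hV).2 h3⟩

theorem lctxH (hw : WellFormed I) (hK : KP (GG I.2.1) I.1.toFinset) :
    LCtx I.2.1 I.1.toFinset (freeV I.1 I.2.2) (hards I) := LCtx.hard (lctx hw hK)

theorem tame_iff (hw : WellFormed I) (hK : KP (GG I.2.1) I.1.toFinset) (t : ℕ) :
    NearlyTame t I ↔ nearD t t (I.2.1, (freeV I.1 I.2.2, hards I)) = true := by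
  rw [nearD_iff t _ _ (lctx hw hK).hWn]
  unfold NearlyTame
  constructor
  · rintro ⟨S, U, T, hS, hU, h⟩
    refine ⟨(S.map ⟨Subtype.val, Subtype.val_injective⟩) ∩ (freeV I.1 I.2.2).toFinset,
      inter_subset_right, T ∩ (hards I).toFinset, fun Z hZ =>
      List.mem_toFinset.1 (mem_inter.1 hZ).2, ?_, ?_⟩
    · have h1 := card_le_card (inter_subset_left
        (s₁ := S.map ⟨Subtype.val, Subtype.val_injective⟩) (s₂ := (freeV I.1 I.2.2).toFinset))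
      have h2 := card_le_card (inter_subset_left (s₁ := T)
        (s₂ := (hards I).toFinset))
      rw [card_map] at h1
      omega
    refine Ok.mono (Subset.refl _) (J := mns (hards I) T) (fun Z hZ => ?_)
      ((ok_iff hw hK t (fun v => ?_) (fun v hv => ?_)).1 h)
    · rw [mem_mns, mem_inter] at hZ
      exact mem_mns.2 ⟨hZ.1, fun hZT => hZ.2 ⟨hZT, List.mem_toFinset.2 hZ.1⟩⟩
    · rw [hU, mem_sdiff, mem_inter, List.mem_toFinset, mem_freeV, mem_map]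
      constructor
      · rintro ⟨h1, h2⟩
        refine ⟨⟨v.2, h2⟩, fun h3 => h1 ?_⟩
        obtain ⟨s, hs, he⟩ := h3.1
        rw [← Subtype.ext (show s.1 = v.1 from he)]
        exact hs
      · rintro ⟨h1, h2⟩
        exact ⟨fun h3 => h2 ⟨⟨v, h3, rfl⟩, h1⟩, h1.2⟩
    · exact (mem_freeV.1 (List.mem_toFinset.1 (mem_sdiff.1 hv).1)).1
  · rintro ⟨S, hS, T, _, hc, hk⟩
    have hSV : ∀ s ∈ S, s ∈ I.1 := fun s hs => (mem_freeV.1 (List.mem_toFinset.1 (hS hs))).1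
    have hUV : ∀ s ∈ (freeV I.1 I.2.2).toFinset \ S, s ∈ I.1 := fun s hs =>
      (mem_freeV.1 (List.mem_toFinset.1 (mem_sdiff.1 hs).1)).1
    obtain ⟨S', h1, h2⟩ := exists_lift hSV
    obtain ⟨U', h3, h4⟩ := exists_lift hUV
    refine ⟨S', U', T, by omega, fun v => ?_, (ok_iff hw hK t h4 hUV).2 hk⟩
    rw [h4, h2, mem_sdiff, List.mem_toFinset, mem_freeV]
    constructor
    · rintro ⟨h5, h6⟩
      exact ⟨h6, h5.2⟩
    · rintro ⟨h5, h6⟩
      exact ⟨⟨v.2, h6⟩, h5⟩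

/-- the algorithm -/
def solveD (t : ℕ) (I : Inst) : Bool :=
  wfB I && kpB I.1 I.2.1 && nearD t t (I.2.1, (freeV I.1 I.2.2, hards I)) &&
    topD t t (I.2.1, (freeV I.1 I.2.2, hards I))

theorem poly_solveD (t : ℕ) : Poly (solveD t) := by
  have h1 := poly_nearD t t
  have h2 := poly_topD t t
  unfold solveD wfB kpB nodupB hards
  generalize nearD t t = f at h1
  generalize topD t t = g at h2
  fun_prop

theorem solveD_iff (t : ℕ) (I : Inst) : (WellFormed I ∧ Free twoP1P2 (graph I.1 I.2.1) ∧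
    NearlyTame t I ∧ DCS I) ↔ solveD t I = true := by
  unfold solveD
  rw [Bool.and_eq_true, Bool.and_eq_true, Bool.and_eq_true, wfB_iff, kpB_iff, free_iff,
    and_assoc, and_assoc]
  refine and_congr_right fun hw => and_congr_right fun hK => ?_
  rw [← tame_iff hw hK]
  refine and_congr_right fun hN => ?_
  rw [dcs_iff hw hK, feas_hard (lctx hw hK)]
  constructor
  · intro h
    rw [tame_iff hw hK, nearD_iff t _ _ (lctx hw hK).hWn] at hN
    obtain ⟨S, hS, T, hT', hc, hk⟩ := hN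
    exact topD_complete t S T _ _ (lctxH hw hK) hS hT' hc hk h
  · exact topD_sound t _ _ (lctxH hw hK)

theorem mainD (t : ℕ) : InPP (fun I : Inst => WellFormed I ∧ Free twoP1P2 (graph I.1 I.2.1) ∧
    NearlyTame t I ∧ DCS I) :=
  inPP_of (poly_solveD t) fun I => solveD_iff t I

end Pool.Agent.Helper878_bh
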