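import Pool.Agent.Helper878_bg.Top

/-!
# Terminal sets with two components seen by all nonterminals
-/

set_option autoImplicit false
set_option linter.unusedSectionVars false

namespace Pool.Agent.Helper878_bh

open Finset Pool.Agent.NPC Pool.Agent.H671R2.SF Pool.Agent.Helper878_dcs Pool.Agent.Helper878_mm
open Pool.Agent.Helper878_bs Pool.Agent.Helper878_bg
open scoped Classical

variable {E : List (ℕ × ℕ)} {U : Finset ℕ} {W : List ℕ} {J : List (List ℕ)}

/-- the setting -/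
structure TD (E : List (ℕ × ℕ)) (U : Finset ℕ) (W : List ℕ) (J : List (List ℕ)) : Prop where
  lc : LCtx E U W J
  nth : ∀ Z ∈ J, ¬ three (GG E) Z.toFinset
  dom : ∀ Z ∈ J, ∀ w ∈ W, ∃ z ∈ Z, (GG E).Adj w z

section
variable (h : TD E U W J) {Z : List ℕ} (hZ : Z ∈ J)
include h hZ

theorem TD.nmm : nm Z ∈ Z.toFinset := List.mem_toFinset.2 (nm_mem (h.lc.hne Z hZ))

theorem TD.ne' : Z.toFinset.Nonempty := ⟨_, h.nmm hZ⟩

/-- three vertices in pairwise different classes do not exist -/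
theorem TD.two {x y z : ℕ} (hx : x ∈ Z.toFinset) (hy : y ∈ Z.toFinset) (hz : z ∈ Z.toFinset)
    (h1 : ¬ near (GG E) Z.toFinset x y) (h2 : ¬ near (GG E) Z.toFinset x z) :
    near (GG E) Z.toFinset y z := by
  by_contra h3
  exact h.nth Z hZ ⟨x, hx, y, hy, z, hz, h1, h2, h3⟩

omit hZ in
theorem TD.one_iff {w : ℕ} : s1B E Z w = true ↔ ¬ miss (GG E) Z.toFinset w (nm Z) := nmiss_iff

omit hZ in
theorem TD.two_iff {w : ℕ} : s2B E Z w = true ↔ ∃ z ∈ Z.toFinset,
    ¬ near (GG E) Z.toFinset (nm Z) z ∧ ¬ miss (GG E) Z.toFinset w z := by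
  unfold s2B
  simp only [List.any_eq_true, Bool.and_eq_true, nnear_iff, nmiss_iff, List.mem_toFinset]

theorem TD.zero {c : ℕ} (hc : zB E Z c = true) : Con (GG E) (Z.toFinset ∪ {c}) := by
  have hK := h.lc.hK
  have hU := h.lc.hJU Z hZ
  have hne := h.ne' hZ
  have hd := h.lc.hdc Z hZ
  have h0 := h.nmm hZ
  unfold zB at hc
  rw [Bool.and_eq_true, h.one_iff, h.two_iff] at hc
  obtain ⟨h1, z', hz', h2, h3⟩ := hc
  refine con_single hne fun z hz hm => ?_
  by_cases hn : near (GG E) Z.toFinset (nm Z) z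
  · exact h1 (miss_congr hK hU hne hd hz h0 (near_symm hn) hm)
  · exact h3 (miss_congr hK hU hne hd hz hz' (h.two hZ h0 hz hz' hn h2) hm)

/-- what the two vertices of a pair see -/
theorem TD.sides {a b : ℕ} (hb : b ∈ W) (h1 : sg3 E Z a = 1)
    (h2 : sg3 E Z b = 2) : ∃ z ∈ Z.toFinset, ¬ near (GG E) Z.toFinset (nm Z) z ∧
      ¬ miss (GG E) Z.toFinset a (nm Z) ∧ miss (GG E) Z.toFinset b (nm Z) ∧
      (GG E).Adj b z ∧
      ∀ x ∈ Z.toFinset, (GG E).Adj a x → near (GG E) Z.toFinset (nm Z) x := by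
  rw [sg3_one] at h1
  rw [sg3_two] at h2
  obtain ⟨ha1, ha2⟩ := h1
  obtain ⟨-, hb2⟩ := h2
  rw [h.one_iff] at ha2
  have hbm : miss (GG E) Z.toFinset b (nm Z) := by
    by_contra hn
    have := h.one_iff.2 hn
    rw [hb2] at this
    exact absurd this (by decide)
  obtain ⟨z1, hz1, e4⟩ := h.dom Z hZ b hb
  rw [← List.mem_toFinset] at hz1
  refine ⟨z1, hz1, fun hn => hbm z1 hz1 hn e4, ha2, hbm, e4, ?_⟩
  intro x hx hax
  by_contra hn
  have e1 : s2B E Z a = true := h.two_iff.2 ⟨x, hx, hn, fun hm => miss_self hx hm hax⟩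
  have e2 : s1B E Z a = true := h.one_iff.2 ha2
  unfold zB at ha1
  rw [e1, e2] at ha1
  exact absurd ha1 (by decide)

theorem TD.pair {a b : ℕ} (hb : b ∈ W) (h1 : sg3 E Z a = 1)
    (h2 : sg3 E Z b = 2) (hab : (GG E).Adj a b) : Con (GG E) (Z.toFinset ∪ {a, b}) := by
  have hK := h.lc.hK
  have hU := h.lc.hJU Z hZ
  have hne := h.ne' hZ
  have hd := h.lc.hdc Z hZ
  have h0 := h.nmm hZ
  obtain ⟨z1, hz1, hn1, ha2, hbm, e4, e1⟩ := h.sides hZ hb h1 h2
  refine con_pair hne ?_ (Or.inl hab)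
  intro z hz
  by_cases hn : near (GG E) Z.toFinset (nm Z) z
  · exact Or.inl fun hm => ha2 (miss_congr hK hU hne hd hz h0 (near_symm hn) hm)
  · right
    intro hm
    have h5 := miss_congr hK hU hne hd hz hz1 (h.two hZ h0 hz hz1 hn hn1) hm
    exact miss_self hz1 h5 e4

theorem TD.good_con {s : Finset ℕ} (hs : Gd E W J ⟨Z, hZ⟩ s) :
    s ⊆ W.toFinset ∧ Con (GG E) (Z.toFinset ∪ s) := by
  rcases hs with ⟨c, hc, h1, rfl⟩ | ⟨a, ha, b, hb, h1, h2, h3, rfl⟩
  · exact ⟨Finset.singleton_subset_iff.2 hc, h.zero hZ (sg3_zero.1 h1)⟩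
  · exact ⟨Finset.insert_subset ha (Finset.singleton_subset_iff.2 hb),
      h.pair hZ (List.mem_toFinset.1 hb) h1 h2 h3⟩

theorem TD.con_good {o : Finset ℕ} (ho : o ⊆ W.toFinset) (hc : Con (GG E) (Z.toFinset ∪ o)) :
    ∃ s ⊆ o, Gd E W J ⟨Z, hZ⟩ s := by
  have hK := h.lc.hK
  have hU := h.lc.hJU Z hZ
  have hne := h.ne' hZ
  have hd := h.lc.hdc Z hZ
  have h0 := h.nmm hZ
  by_cases hz : ∃ c ∈ o, zB E Z c = true
  · obtain ⟨c, hco, hz⟩ := hz
    exact ⟨{c}, Finset.singleton_subset_iff.2 hco, Or.inl ⟨c, ho hco, sg3_zero.2 hz, rfl⟩⟩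
  · push Not at hz
    obtain ⟨z1, hz1, hn1⟩ := exists_not_near hne hd _ h0
    have hin : ∀ b ∈ (Z.toFinset ∪ o) \ Z.toFinset, b ∈ o := by
      intro b hb
      rw [Finset.mem_sdiff, Finset.mem_union] at hb
      exact hb.1.resolve_left hb.2
    have hzf : ∀ b ∈ o, zB E Z b = false := fun b hb => Bool.eq_false_iff.2 (hz b hb)
    obtain ⟨b, hb, a, ha, h1, h2, h3⟩ := exists_edge hK hU hne hd Finset.subset_union_left hc h0
      (h.nth Z hZ) (by
        intro b hb hm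
        refine ⟨z1, hz1, ?_⟩
        by_contra hn
        have e1 : s1B E Z b = true := h.one_iff.2 hm
        have e2 : s2B E Z b = true := h.two_iff.2 ⟨z1, hz1, hn1, hn⟩
        have e3 := hzf b (hin b hb)
        unfold zB at e3
        rw [e1, e2] at e3
        exact absurd e3 (by decide))
    have hbo := hin b hb
    have hao := hin a ha
    refine ⟨{b, a}, Finset.insert_subset hbo (Finset.singleton_subset_iff.2 hao),
      Or.inr ⟨b, ho hbo, a, ho hao, sg3_one.2 ⟨hzf b hbo, h.one_iff.2 h1⟩,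
        sg3_two.2 ⟨hzf a hao, ?_⟩, h3.symm, rfl⟩⟩
    by_contra hn
    rw [Bool.not_eq_false] at hn
    exact h.one_iff.1 hn h2

theorem TD.op_of_labels {a b : ℕ} (hb : b ∈ W) (h1 : sg3 E Z a = 1) (h2 : sg3 E Z b = 2) :
    Op E Z a b := by
  have hK := h.lc.hK
  have hU := h.lc.hJU Z hZ
  have hne := h.ne' hZ
  have hd := h.lc.hdc Z hZ
  have h0 := h.nmm hZ
  obtain ⟨z1, hz1, hn1, ha2, hbm, e4, e1⟩ := h.sides hZ hb h1 h2
  unfold miss at ha2
  push Not at ha2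
  obtain ⟨z0, hz0, -, hz0a⟩ := ha2
  refine ⟨⟨z0, List.mem_toFinset.1 hz0, hz0a⟩, ⟨z1, List.mem_toFinset.1 hz1, e4⟩, ?_⟩
  intro x hx y hy hax hby
  rw [← List.mem_toFinset] at hx hy
  have hnx : near (GG E) Z.toFinset (nm Z) x := e1 x hx hax
  have hny : ¬ near (GG E) Z.toFinset (nm Z) y := fun hn => hbm y hy hn hby
  refine ⟨fun he => hny (he ▸ hnx), fun he => hny ?_⟩
  exact near_trans hK hU hne hd h0 hx hy hnx (near_of_adj he)

end

theorem TD.toLC (h : TD E U W J) : LC W J := LCtx.toLC h.lc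

theorem TD.feas_good (h : TD E U W J) : Feas (GG E) W.toFinset (Zf J) ↔ Sol E W J := by
  unfold Sol
  constructor
  · rintro ⟨o, ho, hd⟩
    have hex : ∀ i : {Z // Z ∈ J}, ∃ s ⊆ o i, Gd E W J i s := fun i =>
      h.con_good i.2 (ho i).1 (ho i).2
    choose s hs1 hs2 using hex
    exact ⟨s, hs2, fun i j hij => Finset.disjoint_of_subset_left (hs1 i)
      (Finset.disjoint_of_subset_right (hs1 j) (hd i j hij))⟩
  · rintro ⟨o, ho, hd⟩
    exact ⟨o, fun i => h.good_con i.2 (ho i), hd⟩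

theorem TD.ctxF (h : TD E U W J) :
    Pool.Agent.Helper878_bs.Ctx W.toFinset (sgF E (flg E W J) J) (GG E).Adj
      (SpF E (flg E W J)) where
  sym := fun a b hab => spF_iff.2 (spF_iff.1 hab).symm
  adj := by
    intro i a ha b hb h1 h2 hn
    by_contra hab
    have hf := f3_two h2
    have h1' : sg3 E i.1 a = 1 := (f3_on hf).symm.trans h1
    have h2' : sg3 E i.1 b = 2 := (f3_on hf).symm.trans h2
    refine hn (spF_iff.2 ⟨i.1, i.2, (mem_flg.1 (fB_iff.1 hf)).2, ?_, hab⟩)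
    exact h.op_of_labels i.2 (List.mem_toFinset.1 hb) h1' h2'

theorem TD.good_iff (h : TD E U W J) (i : {Z // Z ∈ J}) (s : Finset ℕ) :
    Gd E W J i s ↔ GdF E (flg E W J) W J i s := by
  constructor
  · rintro (⟨c, hc, h1, h2⟩ | ⟨a, ha, b, hb, h1, h2, h3, h4⟩)
    · exact Or.inl ⟨c, hc, f3_zero.2 (sg3_zero.1 h1), h2⟩
    · have hop := h.op_of_labels i.2 (List.mem_toFinset.1 hb) h1 h2
      have hf : fB (flg E W J) i.1 = true :=
        fB_iff.2 (mem_flg.2 ⟨i.2, a, ha, b, hb, hop, h3⟩)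
      exact Or.inr ⟨a, ha, b, hb, (f3_on hf).trans h1, (f3_on hf).trans h2, h3, h4⟩
  · rintro (⟨c, hc, h1, h2⟩ | ⟨a, ha, b, hb, h1, h2, h3, h4⟩)
    · exact Or.inl ⟨c, hc, sg3_zero.2 (f3_zero.1 h1), h2⟩
    · have hf := f3_two h2
      exact Or.inr ⟨a, ha, b, hb, (f3_on hf).symm.trans h1, (f3_on hf).symm.trans h2, h3, h4⟩

/-- the search decides feasibility -/
theorem TD.run_iff (h : TD E U W J) {t : ℕ} (ht : KF W.toFinset (SpU E W.toFinset J) t) :
    runB t E W J = true ↔ Feas (GG E) W.toFinset (Zf J) := by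
  have ht' : KF W.toFinset (SpF E (flg E W J)) t := by
    intro X Y hX hY hXc hYc
    obtain ⟨x, hx, y, hy, hxy⟩ := ht X Y hX hY hXc hYc
    exact ⟨x, hx, y, hy, fun hs => hxy (spF_iff.1 hs)⟩
  rw [h.feas_good]
  unfold runB
  rw [recF_iff h.toLC h.ctxF ht']
  unfold Sol
  constructor
  · rintro ⟨g, hg, hd⟩
    exact ⟨g, fun i => (h.good_iff i _).2 (hg i), hd⟩
  · rintro ⟨g, hg, hd⟩
    exact ⟨g, fun i => (h.good_iff i _).1 (hg i), hd⟩

/-- two elements, or an edge inside -/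
def Sml (E : List (ℕ × ℕ)) (Z : List ℕ) : Prop :=
  Z.length ≤ 2 ∨ ∃ x ∈ Z, ∃ y ∈ Z, (GG E).Adj x y

theorem not_three_of_sml {Z : List ℕ} (hK : KP (GG E) U) (hU : Z.toFinset ⊆ U) (hne : Z ≠ [])
    (hd : ¬ Con (GG E) Z.toFinset) (hs : Sml E Z) : ¬ three (GG E) Z.toFinset := by
  have hne' : Z.toFinset.Nonempty := by
    obtain ⟨z, hz⟩ := List.exists_mem_of_ne_nil _ hne
    exact ⟨z, List.mem_toFinset.2 hz⟩
  rintro ⟨z1, hz1, z2, hz2, z3, hz3, n12, n13, n23⟩
  rcases hs with hs | ⟨x, hx, y, hy, hxy⟩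
  · have e12 : z1 ≠ z2 := fun e => n12 (e ▸ near_refl _ _)
    have e13 : z1 ≠ z3 := fun e => n13 (e ▸ near_refl _ _)
    have e23 : z2 ≠ z3 := fun e => n23 (e ▸ near_refl _ _)
    have h1 : ({z1, z2, z3} : Finset ℕ).card = 3 := card_eq_three.2 ⟨z1, z2, z3, e12, e13, e23, rfl⟩
    have h2 : ({z1, z2, z3} : Finset ℕ) ⊆ Z.toFinset := by
      intro z hz
      simp only [mem_insert, mem_singleton] at hz
      rcases hz with rfl | rfl | rfl <;> assumption
    have h3 := card_le_card h2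
    have h4 := List.toFinset_card_le Z
    omega
  · rw [← List.mem_toFinset] at hx hy
    have key : ∀ u v, u ∈ Z.toFinset → v ∈ Z.toFinset → ¬ near (GG E) Z.toFinset x u →
        ¬ near (GG E) Z.toFinset x v → near (GG E) Z.toFinset u v := by
      intro u v hu hv nu nv
      by_cases he : u = v
      · exact he ▸ near_refl _ _
      · exact near_of_adj (hK x (hU hx) y (hU hy) u (hU hu) v (hU hv) hxy
          (fun e => nu (near_of_adj e)) (fun e => nu (Or.inr (Or.inr ⟨y, hy, hxy, e⟩)))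
          (fun e => nv (near_of_adj e)) (fun e => nv (Or.inr (Or.inr ⟨y, hy, hxy, e⟩))) he)
    have tr : ∀ u v, u ∈ Z.toFinset → v ∈ Z.toFinset → near (GG E) Z.toFinset x u →
        near (GG E) Z.toFinset x v → near (GG E) Z.toFinset u v := fun u v hu hv nu nv =>
      near_trans hK hU hne' hd hu hx hv (near_symm nu) nv
    by_cases c1 : near (GG E) Z.toFinset x z1
    · by_cases c2 : near (GG E) Z.toFinset x z2
      · exact n12 (tr z1 z2 hz1 hz2 c1 c2)
      · by_cases c3 : near (GG E) Z.toFinset x z3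
        · exact n13 (tr z1 z3 hz1 hz3 c1 c3)
        · exact n23 (key z2 z3 hz2 hz3 c2 c3)
    · by_cases c2 : near (GG E) Z.toFinset x z2
      · by_cases c3 : near (GG E) Z.toFinset x z3
        · exact n23 (tr z2 z3 hz2 hz3 c2 c3)
        · exact n13 (key z1 z3 hz1 hz3 c1 c3)
      · exact n12 (key z1 z2 hz1 hz2 c1 c2)

/-- the promise, without deletions -/
def Ok (E : List (ℕ × ℕ)) (t : ℕ) (W : Finset ℕ) (J : List (List ℕ)) : Prop :=
  (∀ Z ∈ J, Sml E Z ∧ ∀ w ∈ W, ∃ z ∈ Z, (GG E).Adj w z) ∧ KF W (SpU E W J) t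

/-- the promise without deletions, as a program -/
def okB (t : ℕ) (E : List (ℕ × ℕ)) (W : List ℕ) (J : List (List ℕ)) : Bool :=
  (J.all fun Z => (decide (Z.length ≤ 2) || Z.any fun x => Z.any fun y => adj E x y) &&
    W.all fun w => Z.any fun z => adj E w z) && nbB t E W J

theorem okB_iff (hW : W.Nodup) (t : ℕ) : okB t E W J = true ↔ Ok E t W.toFinset J := by
  unfold okB Ok Sml
  rw [Bool.and_eq_true, nbB_iff hW, List.all_eq_true]
  refine and_congr_left fun _ => forall_congr' fun Z => forall_congr' fun _ => ?_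
  simp only [Bool.and_eq_true, Bool.or_eq_true, decide_eq_true_eq, List.any_eq_true, adj_iff,
    List.all_eq_true, List.mem_toFinset]

theorem Ok.mono {t : ℕ} {U U' : Finset ℕ} {J J' : List (List ℕ)} (hU : U' ⊆ U)
    (hJ : ∀ Z ∈ J', Z ∈ J) (h : Ok E t U J) : Ok E t U' J' :=
  ⟨fun Z hZ => ⟨(h.1 Z (hJ Z hZ)).1, fun w hw => (h.1 Z (hJ Z hZ)).2 w (hU hw)⟩,
    KF_mono hU hJ h.2⟩

theorem Ok.td {t : ℕ} (hL : LCtx E U W J) (h : Ok E t W.toFinset J) : TD E U W J where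
  lc := hL
  nth := fun Z hZ => not_three_of_sml hL.hK (hL.hJU Z hZ) (hL.hne Z hZ) (hL.hdc Z hZ) (h.1 Z hZ).1
  dom := fun Z hZ w hw => (h.1 Z hZ).2 w (List.mem_toFinset.2 hw)

section
variable {γ : Type} [TEnc γ] {E : γ → List (ℕ × ℕ)} {W : γ → List ℕ} {J : γ → List (List ℕ)}

@[fun_prop]
theorem poly_okB (t : ℕ) (hE : Poly E) (hW : Poly W) (hJ : Poly J) :
    Poly (fun x => okB t (E x) (W x) (J x)) := by
  unfold okB; fun_prop

end

end Pool.Agent.Helper878_bh
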