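import Pool.Agent.Helper878_bh.OptD
import Pool.Agent.Helper878_dcs.Final

/-!
# Deleting a bounded number of vertices and terminal sets
-/

set_option autoImplicit false
set_option linter.unusedSectionVars false

namespace Pool.Agent.Helper878_bh

open Finset Pool.Agent.NPC Pool.Agent.H671R2.SF Pool.Agent.Helper878_dcs Pool.Agent.Helper878_mm
open Pool.Agent.Helper878_bs Pool.Agent.Helper878_bg
open scoped Classical

/-- guess what happens to at most `m` vertices and terminal sets -/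
def topD (t : ℕ) : ℕ → S3 → Bool
  | 0, x => okB t x.1 x.2.1 x.2.2 && runB t x.1 x.2.1 x.2.2
  | m + 1, x => (okB t x.1 x.2.1 x.2.2 && runB t x.1 x.2.1 x.2.2) ||
      ((x.2.1.any fun a => topD t m (x.1, (rm a x.2.1, x.2.2))) ||
      (x.2.2.any fun Z => x.2.1.any fun a => x.2.1.any fun b => x.2.1.any fun c =>
        !discB x.1 (a :: b :: c :: Z) &&
          topD t m (x.1, (rm c (rm b (rm a x.2.1)), rmZ Z x.2.2))))

/-- some at most `m` vertices and terminal sets can be deleted so that the promise holds -/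
def nearD (t : ℕ) : ℕ → S3 → Bool
  | 0, x => okB t x.1 x.2.1 x.2.2
  | m + 1, x => okB t x.1 x.2.1 x.2.2 ||
      ((x.2.1.any fun a => nearD t m (x.1, (rm a x.2.1, x.2.2))) ||
      (x.2.2.any fun Z => nearD t m (x.1, (x.2.1, rmZ Z x.2.2))))

theorem poly_topD (t : ℕ) : ∀ m, Poly (topD t m)
  | 0 => by
    have e : topD t 0 = fun x : S3 => okB t x.1 x.2.1 x.2.2 && runB t x.1 x.2.1 x.2.2 := by
      funext x; rfl
    rw [e]
    fun_prop
  | m + 1 => by
    have ih := poly_topD t m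
    have e : topD t (m + 1) = fun x : S3 =>
      (okB t x.1 x.2.1 x.2.2 && runB t x.1 x.2.1 x.2.2) ||
      ((x.2.1.any fun a => topD t m (x.1, (rm a x.2.1, x.2.2))) ||
      (x.2.2.any fun Z => x.2.1.any fun a => x.2.1.any fun b => x.2.1.any fun c =>
        !discB x.1 (a :: b :: c :: Z) &&
          topD t m (x.1, (rm c (rm b (rm a x.2.1)), rmZ Z x.2.2)))) := by
      funext x; rfl
    rw [e]
    generalize topD t m = f at ih
    fun_prop

theorem poly_nearD (t : ℕ) : ∀ m, Poly (nearD t m)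
  | 0 => by
    have e : nearD t 0 = fun x : S3 => okB t x.1 x.2.1 x.2.2 := by
      funext x; rfl
    rw [e]
    fun_prop
  | m + 1 => by
    have ih := poly_nearD t m
    have e : nearD t (m + 1) = fun x : S3 => okB t x.1 x.2.1 x.2.2 ||
      ((x.2.1.any fun a => nearD t m (x.1, (rm a x.2.1, x.2.2))) ||
      (x.2.2.any fun Z => nearD t m (x.1, (x.2.1, rmZ Z x.2.2)))) := by
      funext x; rfl
    rw [e]
    generalize nearD t m = f at ih
    fun_prop

variable {E : List (ℕ × ℕ)} {U : Finset ℕ} {W : List ℕ} {J : List (List ℕ)}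

theorem LCtx.mono (h : LCtx E U W J) {W' : List ℕ} {J' : List (List ℕ)} (hW : ∀ w ∈ W', w ∈ W)
    (hWn : W'.Nodup) (hJ : ∀ Z ∈ J', Z ∈ J) (hJn : J'.Nodup) : LCtx E U W' J' where
  hK := h.hK
  hWn := hWn
  hWU := fun w hw => h.hWU (List.mem_toFinset.2 (hW w (List.mem_toFinset.1 hw)))
  hJn := hJn
  hJU := fun Z hZ => h.hJU Z (hJ Z hZ)
  hJW := fun Z hZ => (h.hJW Z (hJ Z hZ)).mono_right fun w hw =>
    List.mem_toFinset.2 (hW w (List.mem_toFinset.1 hw))
  hne := fun Z hZ => h.hne Z (hJ Z hZ)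
  hdis := fun Z hZ Z' hZ' => h.hdis Z (hJ Z hZ) Z' (hJ Z' hZ')
  hdc := fun Z hZ => h.hdc Z (hJ Z hZ)

/-- `Z` and three vertices, as a list and as a set -/
theorem cons3 (a b c : ℕ) (Z : List ℕ) : (a :: b :: c :: Z).toFinset = Z.toFinset ∪ {a, b, c} := by
  ext x
  simp only [List.mem_toFinset, List.mem_cons, mem_union, mem_insert, mem_singleton]
  tauto

theorem con3 (h : LCtx E U W J) {Z : List ℕ} (hZ : Z ∈ J) {a b c : ℕ} (ha : a ∈ W) (hb : b ∈ W)
    (hc : c ∈ W) : (!discB E (a :: b :: c :: Z)) = true ↔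
      Con (GG E) (Z.toFinset ∪ {a, b, c}) := by
  have hsub : (a :: b :: c :: Z).toFinset ⊆ U := by
    rw [cons3]
    refine union_subset (h.hJU Z hZ) ?_
    intro x hx
    simp only [mem_insert, mem_singleton] at hx
    rcases hx with rfl | rfl | rfl
    · exact h.hWU (List.mem_toFinset.2 ha)
    · exact h.hWU (List.mem_toFinset.2 hb)
    · exact h.hWU (List.mem_toFinset.2 hc)
  rw [Bool.not_eq_true', ← Bool.not_eq_true, disc_iff h.hK hsub (List.cons_ne_nil _ _), not_not,
    cons3]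

/-- a feasible family with one index added -/
theorem feas_step {Z : List ℕ} {s : Finset ℕ} (hs : s ⊆ W.toFinset)
    (hc : Con (GG E) (Z.toFinset ∪ s)) {W' : List ℕ} (hW' : ∀ w ∈ W', w ∈ W ∧ w ∉ s)
    (h : Feas (GG E) W'.toFinset (Zf (rmZ Z J))) : Feas (GG E) W.toFinset (Zf J) := by
  obtain ⟨g, hg, hd⟩ := h
  have hm : ∀ i : {Z // Z ∈ J}, i.1 ≠ Z → i.1 ∈ rmZ Z J := fun i hi => mem_rmZ.2 ⟨i.2, hi⟩
  have hgW : ∀ j, ∀ x ∈ g j, x ∈ W ∧ x ∉ s := fun j x hx =>
    hW' x (List.mem_toFinset.1 ((hg j).1 hx))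
  refine ⟨fun i => if h : i.1 = Z then s else g ⟨i.1, hm i h⟩, fun i => ?_, fun i j hij => ?_⟩
  · by_cases e : i.1 = Z
    · dsimp only
      rw [dif_pos e]
      unfold Zf
      rw [e]
      exact ⟨hs, hc⟩
    · dsimp only
      rw [dif_neg e]
      exact ⟨fun x hx => List.mem_toFinset.2 (hgW _ x hx).1, (hg ⟨i.1, hm i e⟩).2⟩
  · dsimp only
    by_cases e : i.1 = Z <;> by_cases f : j.1 = Z
    · exact absurd (Subtype.ext (e.trans f.symm)) hij
    · rw [dif_pos e, dif_neg f, disjoint_right]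
      intro x hx hx'
      exact (hgW _ x hx).2 hx'
    · rw [dif_neg e, dif_pos f, disjoint_left]
      intro x hx hx'
      exact (hgW _ x hx).2 hx'
    · rw [dif_neg e, dif_neg f]
      exact hd _ _ fun he => hij (Subtype.ext (Subtype.mk.inj he))

theorem feas_del {a : ℕ} (h : Feas (GG E) (rm a W).toFinset (Zf J)) :
    Feas (GG E) W.toFinset (Zf J) := by
  obtain ⟨g, hg, hd⟩ := h
  exact ⟨g, fun i => ⟨fun x hx => List.mem_toFinset.2
    (mem_rm.1 (List.mem_toFinset.1 ((hg i).1 hx))).1, (hg i).2⟩, hd⟩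

theorem topD_sound {t : ℕ} : ∀ (m : ℕ) (W : List ℕ) (J : List (List ℕ)), LCtx E U W J →
    topD t m (E, (W, J)) = true → Feas (GG E) W.toFinset (Zf J) := by
  have leaf : ∀ (W : List ℕ) (J : List (List ℕ)), LCtx E U W J →
      (okB t E W J && runB t E W J) = true → Feas (GG E) W.toFinset (Zf J) := by
    intro W J h hl
    rw [Bool.and_eq_true, okB_iff h.hWn] at hl
    exact ((Ok.td h hl.1).run_iff hl.1.2).1 hl.2
  intro m
  induction m with
  | zero => exact leaf
  | succ m ih =>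
    intro W J h hr
    unfold topD at hr
    dsimp only at hr
    rw [Bool.or_eq_true, Bool.or_eq_true] at hr
    simp only [List.any_eq_true] at hr
    rcases hr with hr | ⟨a, ha, hr⟩ | ⟨Z, hZ, a, ha, b, hb, c, hc, hr⟩
    · exact leaf W J h hr
    · exact feas_del (ih _ _ (LCtx.mono h (fun w hw => (mem_rm.1 hw).1) (nodup_rm h.hWn)
        (fun Z hZ => hZ) h.hJn) hr)
    · rw [Bool.and_eq_true, con3 h hZ ha hb hc] at hr
      refine feas_step (s := {a, b, c}) ?_ hr.1 (W' := rm c (rm b (rm a W))) ?_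
        (ih _ _ (LCtx.mono h (fun w hw => (mem_rm.1 (mem_rm.1 (mem_rm.1 hw).1).1).1)
          (nodup_rm (nodup_rm (nodup_rm h.hWn))) (fun Z hZ => (mem_rmZ.1 hZ).1)
          (nodup_rmZ h.hJn)) hr.2)
      · intro x hx
        simp only [mem_insert, mem_singleton] at hx
        rcases hx with rfl | rfl | rfl <;> exact List.mem_toFinset.2 (by assumption)
      · intro w hw
        rw [mem_rm, mem_rm, mem_rm] at hw
        refine ⟨hw.1.1.1, fun hx => ?_⟩
        simp only [mem_insert, mem_singleton] at hx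
        rcases hx with hx | hx | hx
        · exact hw.1.1.2 hx
        · exact hw.1.2 hx
        · exact hw.2 hx

/-- options can be taken of size at most three -/
theorem shrink (h : LCtx E U W J) (hF : Feas (GG E) W.toFinset (Zf J)) :
    ∃ g : {Z // Z ∈ J} → Finset ℕ, (∀ i, g i ⊆ W.toFinset ∧ Con (GG E) (i.1.toFinset ∪ g i) ∧
      ∃ a b c, a ∈ W ∧ b ∈ W ∧ c ∈ W ∧ g i = {a, b, c}) ∧ ∀ i j, i ≠ j → Disjoint (g i) (g j) := by
  obtain ⟨o, ho, hd⟩ := hF
  have hex : ∀ i : {Z // Z ∈ J}, ∃ s ⊆ o i, Con (GG E) (i.1.toFinset ∪ s) ∧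
      ∃ a b c, a ∈ W ∧ b ∈ W ∧ c ∈ W ∧ s = {a, b, c} := by
    intro i
    have hoi := ho i
    have hZU := h.hJU i.1 i.2
    have hne : i.1.toFinset.Nonempty := by
      obtain ⟨z, hz⟩ := List.exists_mem_of_ne_nil _ (h.hne i.1 i.2)
      exact ⟨z, List.mem_toFinset.2 hz⟩
    have hdc := h.hdc i.1 i.2
    have hoU : o i ⊆ U := hoi.1.trans h.hWU
    obtain ⟨s, hs, hsc, hcon⟩ := opt_serve h.hK hZU hoU hne hdc
      (opt_of_con h.hK hZU hne hdc hoU ((h.hJW i.1 i.2).mono_right hoi.1) hoi.2)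
    have hsW : ∀ x ∈ s, x ∈ W := fun x hx => List.mem_toFinset.1 (hoi.1 (hs hx))
    refine ⟨s, hs, hcon, ?_⟩
    have hsne : s.card ≠ 0 := by
      intro h0
      rw [card_eq_zero] at h0
      rw [h0, union_empty] at hcon
      exact hdc hcon
    have hcases : s.card = 1 ∨ s.card = 2 ∨ s.card = 3 := by omega
    rcases hcases with hc | hc | hc
    · obtain ⟨a, rfl⟩ := card_eq_one.1 hc
      exact ⟨a, a, a, hsW a (by simp), hsW a (by simp), hsW a (by simp), by simp⟩
    · obtain ⟨a, b, _, rfl⟩ := card_eq_two.1 hc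
      exact ⟨a, a, b, hsW a (by simp), hsW a (by simp), hsW b (by simp), by simp⟩
    · obtain ⟨a, b, c, _, _, _, rfl⟩ := card_eq_three.1 hc
      exact ⟨a, b, c, hsW a (by simp), hsW b (by simp), hsW c (by simp), rfl⟩
  choose s hs1 hs2 hs3 using hex
  exact ⟨s, fun i => ⟨(hs1 i).trans (ho i).1, hs2 i, hs3 i⟩, fun i j hij =>
    Finset.disjoint_of_subset_left (hs1 i) (Finset.disjoint_of_subset_right (hs1 j) (hd i j hij))⟩

theorem topD_complete {t : ℕ} : ∀ (m : ℕ) (S : Finset ℕ) (T : Finset (List ℕ)) (W : List ℕ)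
    (J : List (List ℕ)), LCtx E U W J → S ⊆ W.toFinset → (∀ Z ∈ T, Z ∈ J) →
    S.card + T.card ≤ m → Ok E t (W.toFinset \ S) (mns J T) →
    Feas (GG E) W.toFinset (Zf J) → topD t m (E, (W, J)) = true := by
  have leaf : ∀ (W : List ℕ) (J : List (List ℕ)), LCtx E U W J →
      Ok E t (W.toFinset \ ∅) (mns J ∅) → Feas (GG E) W.toFinset (Zf J) →
      (okB t E W J && runB t E W J) = true := by
    intro W J h hk hs
    have hk' : Ok E t W.toFinset J :=
      Ok.mono (by rw [sdiff_empty]) (fun Z hZ => mem_mns.2 ⟨hZ, notMem_empty Z⟩) hk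
    rw [Bool.and_eq_true]
    exact ⟨(okB_iff h.hWn t).2 hk', ((Ok.td h hk').run_iff hk'.2).2 hs⟩
  intro m
  induction m with
  | zero =>
    intro S T W J h hS hT hc hk hs
    have h1 : S = ∅ := card_eq_zero.1 (by omega)
    have h2 : T = ∅ := card_eq_zero.1 (by omega)
    subst h1 h2
    exact leaf W J h hk hs
  | succ m ih =>
    intro S T W J h hS hT hc hk hs
    unfold topD
    dsimp only
    rw [Bool.or_eq_true, Bool.or_eq_true]
    simp only [List.any_eq_true]
    have hsol := hs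
    obtain ⟨g, hg, hd⟩ := shrink h hs
    by_cases hex : ∃ i : {Z // Z ∈ J}, i.1 ∈ T ∨ ∃ s ∈ S, s ∈ g i
    · obtain ⟨i, hi⟩ := hex
      have hce : (S \ g i).card + (T.erase i.1).card ≤ m := by
        have c1 : (S \ g i).card ≤ S.card := card_le_card sdiff_subset
        have c2 : (T.erase i.1).card ≤ T.card := card_le_card (erase_subset _ _)
        rcases hi with hi | ⟨s, hsS, hsi⟩
        · have := card_erase_of_mem hi
          have := card_pos.2 ⟨i.1, hi⟩
          omega
        · have : (S \ g i).card < S.card := by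
            refine card_lt_card ⟨sdiff_subset, fun hsub => ?_⟩
            exact (mem_sdiff.1 (hsub hsS)).2 hsi
          omega
      have go : ∀ W' : List ℕ, W'.Nodup → (∀ w, w ∈ W' ↔ w ∈ W ∧ w ∉ g i) →
          topD t m (E, (W', rmZ i.1 J)) = true := by
        intro W' hn hW'
        refine ih (S \ g i) (T.erase i.1) W' (rmZ i.1 J) ?_ ?_ ?_ hce ?_ ?_
        · exact LCtx.mono h (fun w hw => ((hW' w).1 hw).1) hn (fun Z hZ => (mem_rmZ.1 hZ).1)
            (nodup_rmZ h.hJn)
        · intro x hx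
          rw [mem_sdiff] at hx
          exact List.mem_toFinset.2 ((hW' x).2 ⟨List.mem_toFinset.1 (hS hx.1), hx.2⟩)
        · intro Z hZ
          rw [mem_erase] at hZ
          exact mem_rmZ.2 ⟨hT Z hZ.2, hZ.1⟩
        · refine Ok.mono ?_ ?_ hk
          · intro x hx
            rw [mem_sdiff, List.mem_toFinset, hW', mem_sdiff] at hx
            exact mem_sdiff.2 ⟨List.mem_toFinset.2 hx.1.1, fun hxS => hx.2 ⟨hxS, hx.1.2⟩⟩
          · intro Z hZ
            rw [mem_mns, mem_rmZ, mem_erase] at hZ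
            exact mem_mns.2 ⟨hZ.1.1, fun hZT => hZ.2 ⟨hZ.1.2, hZT⟩⟩
        · have hm : ∀ j : {Z // Z ∈ rmZ i.1 J}, j.1 ∈ J := fun j => (mem_rmZ.1 j.2).1
          refine ⟨fun j => g ⟨j.1, hm j⟩, fun j => ⟨fun x hx => ?_, (hg ⟨j.1, hm j⟩).2.1⟩,
            fun j k hjk => hd _ _ fun he => hjk (Subtype.ext (Subtype.mk.inj he))⟩
          refine List.mem_toFinset.2 ((hW' x).2 ⟨List.mem_toFinset.1 ((hg ⟨j.1, hm j⟩).1 hx),
            fun hxi => ?_⟩)
          refine disjoint_left.1 (hd ⟨j.1, hm j⟩ i fun he => ?_) hx hxi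
          exact (mem_rmZ.1 j.2).2 (congrArg Subtype.val he)
      obtain ⟨-, hcon, a, b, c, ha, hb, hcW, hgi⟩ := hg i
      refine Or.inr (Or.inr ⟨i.1, i.2, a, ha, b, hb, c, hcW, ?_⟩)
      rw [Bool.and_eq_true, con3 h i.2 ha hb hcW]
      rw [hgi] at hcon
      refine ⟨hcon, go _ (nodup_rm (nodup_rm (nodup_rm h.hWn))) fun w => ?_⟩
      rw [mem_rm, mem_rm, mem_rm, hgi]
      simp only [mem_insert, mem_singleton]
      tauto
    · push Not at hex
      have hT0 : T = ∅ := by
        rw [eq_empty_iff_forall_notMem]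
        intro Z hZ
        exact (hex ⟨Z, hT Z hZ⟩).1 hZ
      subst hT0
      by_cases hne : S.Nonempty
      swap
      · rw [not_nonempty_iff_eq_empty] at hne
        subst hne
        exact Or.inl (leaf W J h hk hsol)
      obtain ⟨s, hsS⟩ := hne
      have hsW : s ∈ W := List.mem_toFinset.1 (hS hsS)
      have hce : (S.erase s).card + (∅ : Finset (List ℕ)).card ≤ m := by
        rw [card_erase_of_mem hsS]
        rw [card_empty] at hc ⊢
        omega
      refine Or.inr (Or.inl ⟨s, hsW, ih (S.erase s) ∅ (rm s W) J ?_ ?_ (by simp) hce ?_ ?_⟩)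
      · exact LCtx.mono h (fun w hw => (mem_rm.1 hw).1) (nodup_rm h.hWn)
          (fun Z hZ => hZ) h.hJn
      · intro x hx
        rw [mem_erase] at hx
        exact List.mem_toFinset.2 (mem_rm.2 ⟨List.mem_toFinset.1 (hS hx.2), hx.1⟩)
      · refine Ok.mono ?_ (fun Z hZ => hZ) hk
        intro x hx
        rw [mem_sdiff, List.mem_toFinset, mem_rm, mem_erase] at hx
        exact mem_sdiff.2 ⟨List.mem_toFinset.2 hx.1.1, fun hxS => hx.2 ⟨hx.1.2, hxS⟩⟩
      · refine ⟨g, fun i => ⟨fun x hx => ?_, (hg i).2.1⟩, hd⟩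
        refine List.mem_toFinset.2 (mem_rm.2 ⟨List.mem_toFinset.1 ((hg i).1 hx), fun he =>
          (hex i).2 s hsS ?_⟩)
        rw [← he]; exact hx

theorem nearD_iff {t : ℕ} : ∀ (m : ℕ) (W : List ℕ) (J : List (List ℕ)), W.Nodup →
    (nearD t m (E, (W, J)) = true ↔ ∃ S ⊆ W.toFinset, ∃ T : Finset (List ℕ),
      (∀ Z ∈ T, Z ∈ J) ∧ S.card + T.card ≤ m ∧
      Ok E t (W.toFinset \ S) (mns J T)) := by
  have leaf : ∀ (W : List ℕ) (J : List (List ℕ)), Ok E t W.toFinset J ↔
      Ok E t (W.toFinset \ ∅) (mns J ∅) := by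
    intro W J
    constructor
    · exact Ok.mono (by rw [sdiff_empty]) (fun Z hZ => (mem_mns.1 hZ).1)
    · exact Ok.mono (by rw [sdiff_empty]) (fun Z hZ => mem_mns.2 ⟨hZ, notMem_empty Z⟩)
  intro m
  induction m with
  | zero =>
    intro W J hW
    unfold nearD
    dsimp only
    rw [okB_iff hW, leaf]
    constructor
    · intro h
      exact ⟨∅, empty_subset _, ∅, by simp, by simp, h⟩
    · rintro ⟨S, _, T, _, hc, hk⟩
      have h1 : S = ∅ := card_eq_zero.1 (by omega)
      have h2 : T = ∅ := card_eq_zero.1 (by omega)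
      subst h1 h2
      exact hk
  | succ m ih =>
    intro W J hW
    unfold nearD
    dsimp only
    rw [Bool.or_eq_true, Bool.or_eq_true, List.any_eq_true, List.any_eq_true, okB_iff hW, leaf]
    constructor
    · rintro (h | ⟨a, ha, h⟩ | ⟨Z, hZ, h⟩)
      · exact ⟨∅, empty_subset _, ∅, by simp, by simp, h⟩
      · rw [ih _ _ (nodup_rm hW)] at h
        obtain ⟨S, hS, T, hT, hc, hk⟩ := h
        refine ⟨insert a S, ?_, T, hT, ?_, ?_⟩
        · refine insert_subset (List.mem_toFinset.2 ha) fun x hx => ?_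
          exact List.mem_toFinset.2 (mem_rm.1 (List.mem_toFinset.1 (hS hx))).1
        · have := card_insert_le a S
          omega
        · refine Ok.mono ?_ (fun Z hZ => hZ) hk
          intro x hx
          rw [mem_sdiff, mem_insert, List.mem_toFinset, not_or] at hx
          exact mem_sdiff.2 ⟨List.mem_toFinset.2 (mem_rm.2 ⟨hx.1, hx.2.1⟩), hx.2.2⟩
      · rw [ih _ _ hW] at h
        obtain ⟨S, hS, T, hT, hc, hk⟩ := h
        refine ⟨S, hS, insert Z T, ?_, ?_, ?_⟩
        · intro Y hY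
          rcases mem_insert.1 hY with rfl | hY
          · exact hZ
          · exact (mem_rmZ.1 (hT Y hY)).1
        · have := card_insert_le Z T
          omega
        · refine Ok.mono (Subset.refl _) ?_ hk
          intro Y hY
          rw [mem_mns, mem_insert, not_or] at hY
          exact mem_mns.2 ⟨mem_rmZ.2 ⟨hY.1, hY.2.1⟩, hY.2.2⟩
    · rintro ⟨S, hS, T, hT, hc, hk⟩
      by_cases hne : S.Nonempty
      · obtain ⟨s, hs⟩ := hne
        refine Or.inr (Or.inl ⟨s, List.mem_toFinset.1 (hS hs), (ih _ _ (nodup_rm hW)).2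
          ⟨S.erase s, ?_, T, hT, ?_, ?_⟩⟩)
        · intro x hx
          rw [mem_erase] at hx
          exact List.mem_toFinset.2 (mem_rm.2 ⟨List.mem_toFinset.1 (hS hx.2), hx.1⟩)
        · have := card_erase_of_mem hs
          have := card_pos.2 ⟨s, hs⟩
          omega
        · refine Ok.mono ?_ (fun Z hZ => hZ) hk
          intro x hx
          rw [mem_sdiff, List.mem_toFinset, mem_rm, mem_erase] at hx
          exact mem_sdiff.2 ⟨List.mem_toFinset.2 hx.1.1, fun hxS => hx.2 ⟨hx.1.2, hxS⟩⟩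
      · rw [not_nonempty_iff_eq_empty] at hne
        subst hne
        by_cases hne : T.Nonempty
        · obtain ⟨Z, hZ⟩ := hne
          refine Or.inr (Or.inr ⟨Z, hT Z hZ, (ih _ _ hW).2 ⟨∅, empty_subset _, T.erase Z,
            ?_, ?_, ?_⟩⟩)
          · intro Y hY
            rw [mem_erase] at hY
            exact mem_rmZ.2 ⟨hT Y hY.2, hY.1⟩
          · have := card_erase_of_mem hZ
            have := card_pos.2 ⟨Z, hZ⟩
            omega
          · refine Ok.mono (Subset.refl _) ?_ hk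
            intro Y hY
            rw [mem_mns, mem_rmZ, mem_erase] at hY
            exact mem_mns.2 ⟨hY.1.1, fun hYT => hY.2 ⟨hY.1.2, hYT⟩⟩
        · rw [not_nonempty_iff_eq_empty] at hne
          subst hne
          exact Or.inl hk

end Pool.Agent.Helper878_bh
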